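import Mathlib.Data.Fintype.Basic
import Mathlib.Data.Fin.VecNotation
import Mathlib.Order.Bounds.Basic
import Mathlib.Tactic

set_option autoImplicit false
set_option linter.unusedSimpArgs false
set_option linter.unusedTactic false
set_option linter.unreachableTactic false

/-! An internal-variable-free normal logic program without L-stable models. -/

namespace Pool.Agent.Results.MP_718be6_lc.NoLStable

/-- A first-order language with finitely many function symbols (constants are the function symbols
of arity `0`) and finitely many predicate symbols. -/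
structure Lang where
  Fn : Type
  Pr : Type
  finFn : Finite Fn
  finPr : Finite Pr
  far : Fn → ℕ
  par : Pr → ℕ

/-- Terms with variables from `X`. -/
inductive Term (L : Lang) (X : Type) : Type
  | var : X → Term L X
  | app (f : L.Fn) (ts : Fin (L.far f) → Term L X) : Term L X

/-- Atoms with variables from `X`. -/
structure Atom (L : Lang) (X : Type) where
  pred : L.Pr
  args : Fin (L.par pred) → Term L X

/-- A rule `head ← pos, ∼ neg`; the variables are the natural numbers. -/
structure Rule (L : Lang) (X : Type) where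
  head : Atom L X
  pos : List (Atom L X)
  neg : List (Atom L X)

/-- Normal logic programs are finite sets (lists) of rules. -/
abbrev Program (L : Lang) := List (Rule L ℕ)

/-- `x` occurs in the term. -/
def Term.Occ {L : Lang} {X : Type} (x : X) : Term L X → Prop
  | .var y => x = y
  | .app _ ts => ∃ i, (ts i).Occ x

/-- the function symbol `f` occurs in the term. -/
def Term.FnOcc {L : Lang} {X : Type} (f : L.Fn) : Term L X → Prop
  | .var _ => False
  | .app g ts => f = g ∨ ∃ i, (ts i).FnOcc f

def Atom.Occ {L : Lang} {X : Type} (x : X) (a : Atom L X) : Prop := ∃ i, (a.args i).Occ x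

def Atom.FnOcc {L : Lang} {X : Type} (f : L.Fn) (a : Atom L X) : Prop :=
  ∃ i, (a.args i).FnOcc f

/-- all atoms of a rule -/
def Rule.atoms {L : Lang} {X : Type} (r : Rule L X) : List (Atom L X) := r.head :: (r.pos ++ r.neg)

/-- Every function symbol and every predicate symbol of the language occurs in the program, so the
Herbrand base of the program consists of all ground atoms of the language. -/
def UsesAll {L : Lang} (P : Program L) : Prop :=
  (∀ f : L.Fn, ∃ r ∈ P, ∃ a ∈ r.atoms, a.FnOcc f) ∧
  (∀ p : L.Pr, ∃ r ∈ P, ∃ a ∈ r.atoms, a.pred = p)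

/-- Internal-variable-free: every variable occurring in the body of a rule occurs in its head. -/
def InternalVarFree {L : Lang} (P : Program L) : Prop :=
  ∀ r ∈ P, ∀ a ∈ r.pos ++ r.neg, ∀ x : ℕ, a.Occ x → r.head.Occ x

/-- Ground terms and ground atoms. -/
abbrev GTerm (L : Lang) := Term L Empty
abbrev GAtom (L : Lang) := Atom L Empty

def Term.subst {L : Lang} {X Y : Type} (θ : X → Term L Y) : Term L X → Term L Y
  | .var x => θ x
  | .app f ts => .app f fun i => (ts i).subst θ

def Atom.subst {L : Lang} {X Y : Type} (θ : X → Term L Y) (a : Atom L X) : Atom L Y :=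
  ⟨a.pred, fun i => (a.args i).subst θ⟩

def Rule.subst {L : Lang} {X Y : Type} (θ : X → Term L Y) (r : Rule L X) : Rule L Y :=
  ⟨r.head.subst θ, r.pos.map (Atom.subst θ), r.neg.map (Atom.subst θ)⟩

/-- The ground instances of the rules of `P`. -/
def gr {L : Lang} (P : Program L) : Set (Rule L Empty) :=
  {g | ∃ r ∈ P, ∃ θ : ℕ → GTerm L, g = r.subst θ}

/-- The three truth values `0 < u < 1` are `0 < 1 < 2` in `Fin 3`. -/
abbrev TV := Fin 3

/-- Three-valued interpretations. -/
abbrev Interp (L : Lang) := GAtom L → TV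

/-- Rules of a reduct: positive rules whose body atoms are ground atoms (`some a`) or the
additional atom **u** (`none`). -/
structure PRule (L : Lang) where
  head : GAtom L
  body : List (Option (GAtom L))

/-- The value of a body atom of a reduct; the value of **u** is always `u`. -/
def lit {L : Lang} (I : Interp L) : Option (GAtom L) → TV
  | none => 1
  | some a => I a

/-- The value of the body (a conjunction, the empty body has the value `1`). -/
def bodyVal {L : Lang} (I : Interp L) (b : List (Option (GAtom L))) : TV :=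
  b.foldr (fun l v => min (lit I l) v) 2

/-- Three-valued models of a positive program. -/
def IsModel {L : Lang} (Q : Set (PRule L)) (I : Interp L) : Prop :=
  ∀ r ∈ Q, bodyVal I r.body ≤ I r.head

/-- The reduct `P^I`: the ground rules with some `∼ b`, `I b = 1`, are deleted; in the other
rules the literals `∼ b` with `I b = 0` are deleted and the literals `∼ b` with
`I b = u` are replaced by **u**. -/
def reduct {L : Lang} (P : Program L) (I : Interp L) : Set (PRule L) :=
  {q | ∃ g ∈ gr P, (∀ b ∈ g.neg, I b ≠ 2) ∧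
    q = ⟨g.head, g.pos.map some ++ (g.neg.filter fun b => I b ≠ 0).map fun _ => none⟩}

/-- `I` is a stable partial model: it is the least three-valued model of `P^I`. -/
def IsStable {L : Lang} (P : Program L) (I : Interp L) : Prop :=
  IsLeast {J : Interp L | IsModel (reduct P I) J} I

/-- the set of the undefined atoms -/
def undef {L : Lang} (I : Interp L) : Set (GAtom L) := {a | I a = 1}

/-- L-stable models -/
def IsLStable {L : Lang} (P : Program L) (I : Interp L) : Prop :=
  IsStable P I ∧ ¬ ∃ J, IsStable P J ∧ undef J ⊂ undef I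

/-! ### the program -/

/-- predicate symbols of the program -/
inductive Pd | a | b | c | g | l
  deriving DecidableEq

/-- a numbering of the predicate symbols -/
def Pd.num : Pd → Fin 5
  | .a => 0
  | .b => 1
  | .c => 2
  | .g => 3
  | .l => 4

theorem Pd.num_inj : Function.Injective Pd.num := by
  intro x y h
  cases x <;> cases y <;> first | rfl | (simp [Pd.num] at h)

/-- The language with a constant (`false`), a unary function symbol (`true`) and five unary
predicate symbols. -/
def Lg : Lang where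
  Fn := Bool
  Pr := Pd
  finFn := inferInstance
  finPr := Finite.of_injective _ Pd.num_inj
  far := fun f => match f with | false => 0 | true => 1
  par := fun _ => 1

def zr {X : Type} : Term Lg X := .app (L := Lg) false Fin.elim0
def sc {X : Type} (t : Term Lg X) : Term Lg X := .app (L := Lg) true fun _ => t
def at' {X : Type} (p : Pd) (t : Term Lg X) : Atom Lg X := ⟨p, fun _ => t⟩

def x0 : Term Lg ℕ := .var 0

/-- The program
`b(x) ← ∼a(x), ∼g(x), ∼l(x)`; `a(x) ← ∼b(x)`; `g(x) ← b(s x)`; `g(x) ← g(s x)`;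
`l(s x) ← b(x)`; `l(s x) ← l(x)`; `c(x) ← ∼c(x), ∼b(x), ∼g(x)`; `g(0) ← g(0)`. -/
def Pg : Program Lg :=
  [⟨at' .b x0, [], [at' .a x0, at' .g x0, at' .l x0]⟩,
   ⟨at' .a x0, [], [at' .b x0]⟩,
   ⟨at' .g x0, [at' .b (sc x0)], []⟩,
   ⟨at' .g x0, [at' .g (sc x0)], []⟩,
   ⟨at' .l (sc x0), [at' .b x0], []⟩,
   ⟨at' .l (sc x0), [at' .l x0], []⟩,
   ⟨at' .c x0, [], [at' .c x0, at' .b x0, at' .g x0]⟩,
   ⟨at' .g zr, [at' .g zr], []⟩]

theorem at_subst {X Y : Type} (p : Pd) (t : Term Lg X) (θ : X → Term Lg Y) :
    (at' p t).subst θ = at' p (t.subst θ) := rfl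

theorem sc_subst {X Y : Type} (t : Term Lg X) (θ : X → Term Lg Y) :
    (sc t).subst θ = sc (t.subst θ) := rfl

theorem x0_subst {Y : Type} (θ : ℕ → Term Lg Y) : x0.subst θ = θ 0 := rfl

theorem zr_subst {X Y : Type} (θ : X → Term Lg Y) : (zr : Term Lg X).subst θ = zr := by
  show Term.app (L := Lg) false _ = Term.app (L := Lg) false _
  congr 1
  funext i
  exact i.elim0

/-- The ground rules of the program. -/
theorem mem_gr (g : Rule Lg Empty) : g ∈ gr Pg ↔
    (∃ t : GTerm Lg, g = ⟨at' .b t, [], [at' .a t, at' .g t, at' .l t]⟩ ∨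
      g = ⟨at' .a t, [], [at' .b t]⟩ ∨
      g = ⟨at' .g t, [at' .b (sc t)], []⟩ ∨
      g = ⟨at' .g t, [at' .g (sc t)], []⟩ ∨
      g = ⟨at' .l (sc t), [at' .b t], []⟩ ∨
      g = ⟨at' .l (sc t), [at' .l t], []⟩ ∨
      g = ⟨at' .c t, [], [at' .c t, at' .b t, at' .g t]⟩ ∨
      g = ⟨at' .g zr, [at' .g zr], []⟩) := by
  constructor
  · rintro ⟨r, hr, θ, rfl⟩
    refine ⟨θ 0, ?_⟩
    simp only [Pg, List.mem_cons, List.not_mem_nil, or_false] at hr
    rcases hr with rfl | rfl | rfl | rfl | rfl | rfl | rfl | rfl <;>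
      simp [Rule.subst, at_subst, sc_subst, x0_subst, zr_subst]
  · rintro ⟨t, h⟩
    rcases h with rfl | rfl | rfl | rfl | rfl | rfl | rfl | rfl
    all_goals
      first
      | (refine ⟨⟨at' .b x0, [], [at' .a x0, at' .g x0, at' .l x0]⟩, ?_, fun _ => t, ?_⟩ <;>
          simp [Pg, Rule.subst, at_subst, sc_subst, x0_subst, zr_subst]; done)
      | (refine ⟨⟨at' .a x0, [], [at' .b x0]⟩, ?_, fun _ => t, ?_⟩ <;>
          simp [Pg, Rule.subst, at_subst, sc_subst, x0_subst, zr_subst]; done)
      | (refine ⟨⟨at' .g x0, [at' .b (sc x0)], []⟩, ?_, fun _ => t, ?_⟩ <;>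
          simp [Pg, Rule.subst, at_subst, sc_subst, x0_subst, zr_subst]; done)
      | (refine ⟨⟨at' .g x0, [at' .g (sc x0)], []⟩, ?_, fun _ => t, ?_⟩ <;>
          simp [Pg, Rule.subst, at_subst, sc_subst, x0_subst, zr_subst]; done)
      | (refine ⟨⟨at' .l (sc x0), [at' .b x0], []⟩, ?_, fun _ => t, ?_⟩ <;>
          simp [Pg, Rule.subst, at_subst, sc_subst, x0_subst, zr_subst]; done)
      | (refine ⟨⟨at' .l (sc x0), [at' .l x0], []⟩, ?_, fun _ => t, ?_⟩ <;>
          simp [Pg, Rule.subst, at_subst, sc_subst, x0_subst, zr_subst]; done)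
      | (refine ⟨⟨at' .c x0, [], [at' .c x0, at' .b x0, at' .g x0]⟩, ?_, fun _ => t, ?_⟩ <;>
          simp [Pg, Rule.subst, at_subst, sc_subst, x0_subst, zr_subst]; done)
      | (refine ⟨⟨at' .g zr, [at' .g zr], []⟩, ?_, fun _ => t, ?_⟩ <;>
          simp [Pg, Rule.subst, at_subst, sc_subst, x0_subst, zr_subst]; done)

theorem bodyVal_none {L : Lang} {A : Type} (J : Interp L) (l : List A) :
    bodyVal J (l.map fun _ => none) = if l = [] then 2 else 1 := by
  induction l with
  | nil => simp [bodyVal]
  | cons x l ih =>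
    have : bodyVal J ((x :: l).map fun _ => none) = min 1 (bodyVal J (l.map fun _ => none)) := rfl
    rw [this, ih]
    split_ifs <;> simp_all

theorem bv_neg {L : Lang} (I J : Interp L) (neg : List (GAtom L)) (v : TV) :
    bodyVal J (([] : List (GAtom L)).map some ++
      (neg.filter fun b => I b ≠ 0).map fun _ => none) ≤ v ↔
    1 ≤ v ∧ ((∀ b ∈ neg, I b = 0) → v = 2) := by
  have h0 : (([] : List (GAtom L)).map some ++
      (neg.filter fun b => I b ≠ 0).map fun _ => none) =
      ((neg.filter fun b => I b ≠ 0).map fun _ => none) := rfl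
  rw [h0, bodyVal_none]
  by_cases h : ∀ b ∈ neg, I b = 0
  · have : neg.filter (fun b => I b ≠ 0) = [] := by
      rw [List.filter_eq_nil_iff]
      intro b hb
      simp [h b hb]
    rw [if_pos this]
    constructor
    · intro h2
      have : v = 2 := le_antisymm (Fin.le_last v) h2
      subst this
      exact ⟨by decide, fun _ => rfl⟩
    · rintro ⟨-, h2⟩
      rw [h2 h]
  · have : neg.filter (fun b => I b ≠ 0) ≠ [] := by
      intro h2
      apply h
      rw [List.filter_eq_nil_iff] at h2
      intro b hb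
      simpa using h2 b hb
    rw [if_neg this]
    exact ⟨fun h2 => ⟨h2, fun h3 => absurd h3 h⟩, fun h2 => h2.1⟩

theorem bv_pos {L : Lang} (I J : Interp L) (p : GAtom L) (v : TV) :
    bodyVal J ([p].map some ++
      (([] : List (GAtom L)).filter fun b => I b ≠ 0).map fun _ => none) ≤ v ↔ J p ≤ v := by
  have h0 : bodyVal J ([p].map some ++
      (([] : List (GAtom L)).filter fun b => I b ≠ 0).map fun _ => none) = min (J p) 2 := rfl
  rw [h0, min_eq_left (show J p ≤ 2 from Fin.le_last _)]

theorem isModel_iff {L : Lang} (P : Program L) (I J : Interp L) : IsModel (reduct P I) J ↔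
    ∀ g ∈ gr P, (∀ b ∈ g.neg, I b ≠ 2) →
      bodyVal J (g.pos.map some ++ (g.neg.filter fun b => I b ≠ 0).map fun _ => none) ≤
        J g.head := by
  constructor
  · intro h g hg hn
    exact h ⟨g.head, _⟩ ⟨g, hg, hn, rfl⟩
  · rintro h q ⟨g, hg, hn, rfl⟩
    exact h g hg hn

theorem n20 : ¬ (2 : TV) ≤ min 2 0 := by decide
theorem n21 : ¬ (2 : TV) ≤ min 2 1 := by decide

/-- The models of the reduct of the program. -/
structure Md (I J : Interp Lg) (t : GTerm Lg) : Prop where
  b1 : I (at' .a t) ≠ 2 → I (at' .g t) ≠ 2 → I (at' .l t) ≠ 2 → 1 ≤ J (at' .b t)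
  b2 : I (at' .a t) = 0 → I (at' .g t) = 0 → I (at' .l t) = 0 → J (at' .b t) = 2
  a1 : I (at' .b t) ≠ 2 → 1 ≤ J (at' .a t)
  a2 : I (at' .b t) = 0 → J (at' .a t) = 2
  g1 : J (at' .b (sc t)) ≤ J (at' .g t)
  g2 : J (at' .g (sc t)) ≤ J (at' .g t)
  l1 : J (at' .b t) ≤ J (at' .l (sc t))
  l2 : J (at' .l t) ≤ J (at' .l (sc t))
  c1 : I (at' .c t) ≠ 2 → I (at' .b t) ≠ 2 → I (at' .g t) ≠ 2 → 1 ≤ J (at' .c t)
  c2 : I (at' .c t) = 0 → I (at' .b t) = 0 → I (at' .g t) = 0 → J (at' .c t) = 2

theorem md_iff (I J : Interp Lg) : IsModel (reduct Pg I) J ↔ ∀ t, Md I J t := by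
  have h02 : ∀ v : TV, v = 0 → v ≠ 2 := by decide
  rw [isModel_iff]
  constructor
  · intro h t
    have H := fun g hg => h g ((mem_gr g).2 ⟨t, hg⟩)
    refine ⟨?_, ?_, ?_, ?_, ?_, ?_, ?_, ?_, ?_, ?_⟩
    · intro h1 h2 h3
      have := H _ (Or.inl rfl) (by simp [h1, h2, h3])
      rw [bv_neg] at this
      exact this.1
    · intro h1 h2 h3
      have := H _ (Or.inl rfl) (by simp [h1, h2, h3])
      rw [bv_neg] at this
      exact this.2 (by simp [h1, h2, h3])
    · intro h1
      have := H _ (Or.inr (Or.inl rfl)) (by simp [h1])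
      rw [bv_neg] at this
      exact this.1
    · intro h1
      have := H _ (Or.inr (Or.inl rfl)) (by simp [h1])
      rw [bv_neg] at this
      exact this.2 (by simp [h1])
    · have := H _ (Or.inr (Or.inr (Or.inl rfl))) (by simp)
      rwa [bv_pos] at this
    · have := H _ (Or.inr (Or.inr (Or.inr (Or.inl rfl)))) (by simp)
      rwa [bv_pos] at this
    · have := H _ (Or.inr (Or.inr (Or.inr (Or.inr (Or.inl rfl))))) (by simp)
      rwa [bv_pos] at this
    · have := H _ (Or.inr (Or.inr (Or.inr (Or.inr (Or.inr (Or.inl rfl)))))) (by simp)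
      rwa [bv_pos] at this
    · intro h1 h2 h3
      have := H _ (Or.inr (Or.inr (Or.inr (Or.inr (Or.inr (Or.inr (Or.inl rfl)))))))
        (by simp [h1, h2, h3])
      rw [bv_neg] at this
      exact this.1
    · intro h1 h2 h3
      have := H _ (Or.inr (Or.inr (Or.inr (Or.inr (Or.inr (Or.inr (Or.inl rfl)))))))
        (by simp [h1, h2, h3])
      rw [bv_neg] at this
      exact this.2 (by simp [h1, h2, h3])
  · rintro h g hg
    obtain ⟨t, ht⟩ := (mem_gr g).1 hg
    have H := h t
    rcases ht with rfl | rfl | rfl | rfl | rfl | rfl | rfl | rfl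
    · intro hn
      simp only [List.mem_cons, List.not_mem_nil, or_false, forall_eq_or_imp, forall_eq] at hn
      rw [bv_neg]
      exact ⟨H.b1 hn.1 hn.2.1 hn.2.2, fun h2 => H.b2 (h2 _ (by simp)) (h2 _ (by simp))
        (h2 _ (by simp))⟩
    · intro hn
      simp only [List.mem_cons, List.not_mem_nil, or_false, forall_eq_or_imp, forall_eq] at hn
      rw [bv_neg]
      exact ⟨H.a1 hn, fun h2 => H.a2 (h2 _ (by simp))⟩
    · intro _
      rw [bv_pos]
      exact H.g1
    · intro _
      rw [bv_pos]
      exact H.g2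
    · intro _
      rw [bv_pos]
      exact H.l1
    · intro _
      rw [bv_pos]
      exact H.l2
    · intro hn
      simp only [List.mem_cons, List.not_mem_nil, or_false, forall_eq_or_imp, forall_eq] at hn
      rw [bv_neg]
      exact ⟨H.c1 hn.1 hn.2.1 hn.2.2, fun h2 => H.c2 (h2 _ (by simp)) (h2 _ (by simp))
        (h2 _ (by simp))⟩
    · intro _
      rw [bv_pos]

/-! ### ground terms -/

/-- the ground term `s^n 0` -/
def num : ℕ → GTerm Lg
  | 0 => zr
  | n + 1 => sc (num n)

/-- the number of occurrences of `s` in a ground term -/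
def dep : GTerm Lg → ℕ
  | .var x => x.elim
  | .app false _ => 0
  | .app true ts => dep (ts (0 : Fin 1)) + 1

theorem dep_zr : dep zr = 0 := rfl
theorem dep_sc (t : GTerm Lg) : dep (sc t) = dep t + 1 := rfl

theorem num_dep : ∀ t : GTerm Lg, num (dep t) = t
  | .var x => x.elim
  | .app false ts => by
      show zr = Term.app (L := Lg) false ts
      rw [zr]
      congr 1
      funext i
      exact i.elim0
  | .app true ts => by
      show sc (num (dep (ts (0 : Fin 1)))) = Term.app (L := Lg) true ts
      rw [num_dep (ts (0 : Fin 1)), sc]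
      congr 1
      funext i
      exact congrArg ts (Subsingleton.elim (α := Fin 1) 0 i)

theorem dep_num (n : ℕ) : dep (num n) = n := by
  induction n with
  | zero => exact dep_zr
  | succ n ih => rw [num, dep_sc, ih]

theorem atom_eq (x : GAtom Lg) : ∃ p t, x = at' p t := by
  obtain ⟨p, ts⟩ := x
  refine ⟨p, ts (0 : Fin 1), ?_⟩
  show Atom.mk p ts = Atom.mk p _
  congr 1
  funext i
  exact congrArg ts (Subsingleton.elim (α := Fin 1) i 0)

theorem at_pred {X : Type} (p : Pd) (t : Term Lg X) : (at' p t).pred = p := rfl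

/-- the argument of a ground atom -/
def arg (x : GAtom Lg) : GTerm Lg := x.args (0 : Fin 1)

theorem arg_at (p : Pd) (t : GTerm Lg) : arg (at' p t) = t := rfl

open Classical in
/-- lowering some values -/
noncomputable def upd (I : Interp Lg) (p : Pd) (Q : GTerm Lg → Prop) (v : TV) : Interp Lg :=
  fun x => if x.pred = p ∧ Q (arg x) then min (I x) v else I x

theorem upd_le (I : Interp Lg) (p : Pd) (Q : GTerm Lg → Prop) (v : TV) (x : GAtom Lg) :
    upd I p Q v x ≤ I x := by
  unfold upd
  split_ifs
  · exact min_le_left _ _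
  · exact le_rfl

theorem upd_ne (I : Interp Lg) (p : Pd) (Q : GTerm Lg → Prop) (v : TV) (q : Pd) (t : GTerm Lg)
    (h : q ≠ p) : upd I p Q v (at' q t) = I (at' q t) := by
  unfold upd
  rw [if_neg (fun h' => h h'.1)]

theorem upd_not (I : Interp Lg) (p : Pd) (Q : GTerm Lg → Prop) (v : TV) (q : Pd) (t : GTerm Lg)
    (h : ¬ Q t) : upd I p Q v (at' q t) = I (at' q t) := by
  unfold upd
  rw [if_neg (fun h' => h h'.2)]

theorem upd_eq (I : Interp Lg) (p : Pd) (Q : GTerm Lg → Prop) (v : TV) (t : GTerm Lg)
    (h : Q t) : upd I p Q v (at' p t) = min (I (at' p t)) v := by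
  unfold upd
  rw [if_pos ⟨rfl, h⟩]

theorem c_ne {I : Interp Lg} (hI : IsStable Pg I) (t : GTerm Lg) : I (at' .c t) ≠ 2 := by
  intro h
  have hm := (md_iff I I).1 hI.1
  have hJ : ∀ t', Md I (upd I .c (fun s => s = t) 0) t' := by
    intro t'
    have H := hm t'
    constructor
    · rw [upd_ne _ _ _ _ _ _ (by decide)]; exact H.b1
    · rw [upd_ne _ _ _ _ _ _ (by decide)]; exact H.b2
    · rw [upd_ne _ _ _ _ _ _ (by decide)]; exact H.a1
    · rw [upd_ne _ _ _ _ _ _ (by decide)]; exact H.a2
    · rw [upd_ne _ _ _ _ _ _ (by decide), upd_ne _ _ _ _ _ _ (by decide)]; exact H.g1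
    · rw [upd_ne _ _ _ _ _ _ (by decide), upd_ne _ _ _ _ _ _ (by decide)]; exact H.g2
    · rw [upd_ne _ _ _ _ _ _ (by decide), upd_ne _ _ _ _ _ _ (by decide)]; exact H.l1
    · rw [upd_ne _ _ _ _ _ _ (by decide), upd_ne _ _ _ _ _ _ (by decide)]; exact H.l2
    · intro h1 h2 h3
      rw [upd_not _ _ _ _ _ _ (by rintro rfl; exact h1 h)]
      exact H.c1 h1 h2 h3
    · intro h1 h2 h3
      rw [upd_not _ _ _ _ _ _ (by rintro rfl; rw [h] at h1; exact absurd h1 (by decide))]
      exact H.c2 h1 h2 h3
  have hle := hI.2 (show IsModel (reduct Pg I) _ from (md_iff _ _).2 hJ) (at' .c t)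
  rw [upd_eq I .c (fun s => s = t) 0 t rfl, h] at hle
  exact n20 hle

theorem g_of_b {I : Interp Lg} (hI : IsStable Pg I) (m n : ℕ) (h : m < n)
    (hb : I (at' .b (num n)) = 2) : I (at' .g (num m)) = 2 := by
  have hm := (md_iff I I).1 hI.1
  obtain ⟨k, rfl⟩ := Nat.exists_eq_add_of_lt h
  clear h
  induction k generalizing m with
  | zero =>
    have := (hm (num m)).g1
    have hb' : I (at' .b (sc (num m))) = 2 := hb
    rw [hb'] at this
    exact le_antisymm (Fin.le_last _) this
  | succ k ih =>
    have h1 := ih (m + 1) (by rw [← hb]; congr 3; omega)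
    have := (hm (num m)).g2
    have h1' : I (at' .g (sc (num m))) = 2 := h1
    rw [h1'] at this
    exact le_antisymm (Fin.le_last _) this

theorem b_of_g {I : Interp Lg} (hI : IsStable Pg I) (n : ℕ) (hg : I (at' .g (num n)) = 2) :
    ∃ m, n < m ∧ I (at' .b (num m)) = 2 := by
  by_contra hcon
  push Not at hcon
  have hm := (md_iff I I).1 hI.1
  have hJ : ∀ t', Md I (upd I .g (fun s => ∀ m, dep s < m → I (at' .b (num m)) ≠ 2) 1) t' := by
    intro t'
    have H := hm t'
    constructor
    · rw [upd_ne _ _ _ _ _ _ (by decide)]; exact H.b1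
    · rw [upd_ne _ _ _ _ _ _ (by decide)]; exact H.b2
    · rw [upd_ne _ _ _ _ _ _ (by decide)]; exact H.a1
    · rw [upd_ne _ _ _ _ _ _ (by decide)]; exact H.a2
    · rw [upd_ne _ _ _ _ .b _ (by decide)]
      by_cases hQ : ∀ m, dep t' < m → I (at' .b (num m)) ≠ 2
      · rw [upd_eq _ _ _ _ _ hQ]
        refine le_min H.g1 ?_
        have h1 := hQ (dep t' + 1) (Nat.lt_succ_self _)
        rw [num, num_dep] at h1
        revert h1
        generalize I (at' .b (sc t')) = v
        revert v
        decide
      · rw [upd_not _ _ _ _ _ _ hQ]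
        exact H.g1
    · by_cases hQ : ∀ m, dep t' < m → I (at' .b (num m)) ≠ 2
      · have hQ' : ∀ m, dep (sc t') < m → I (at' .b (num m)) ≠ 2 := by
          intro m hm'
          rw [dep_sc] at hm'
          exact hQ m (by omega)
        rw [upd_eq _ _ _ _ t' hQ, upd_eq _ _ _ _ (sc t') hQ']
        exact min_le_min_right _ H.g2
      · rw [upd_not _ _ _ _ _ t' hQ]
        exact (upd_le _ _ _ _ _).trans H.g2
    · rw [upd_ne _ _ _ _ _ _ (by decide), upd_ne _ _ _ _ _ _ (by decide)]; exact H.l1
    · rw [upd_ne _ _ _ _ _ _ (by decide), upd_ne _ _ _ _ _ _ (by decide)]; exact H.l2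
    · rw [upd_ne _ _ _ _ _ _ (by decide)]; exact H.c1
    · rw [upd_ne _ _ _ _ _ _ (by decide)]; exact H.c2
  have hle := hI.2 (show IsModel (reduct Pg I) _ from (md_iff _ _).2 hJ) (at' .g (num n))
  have hcon' : ∀ m, dep (num n) < m → I (at' .b (num m)) ≠ 2 := by rw [dep_num]; exact hcon
  rw [upd_eq I .g (fun s => ∀ m, dep s < m → I (at' .b (num m)) ≠ 2) 1 (num n) hcon', hg] at hle
  exact n21 hle

theorem g_zero_of_b {I : Interp Lg} (hI : IsStable Pg I) (t : GTerm Lg)
    (hb : I (at' .b t) = 2) : I (at' .g t) = 0 := by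
  by_contra hcon
  have hm := (md_iff I I).1 hI.1
  have hJ : ∀ t', Md I (upd I .b (fun s => s = t) 1) t' := by
    intro t'
    have H := hm t'
    constructor
    · intro h1 h2 h3
      by_cases ht : t' = t
      · rw [upd_eq I .b (fun s => s = t) 1 t' ht, ht, hb]
        decide
      · rw [upd_not I .b (fun s => s = t) 1 .b t' ht]
        exact H.b1 h1 h2 h3
    · intro h1 h2 h3
      by_cases ht : t' = t
      · rw [ht] at h2
        exact absurd h2 hcon
      · rw [upd_not I .b (fun s => s = t) 1 .b t' ht]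
        exact H.b2 h1 h2 h3
    · rw [upd_ne _ _ _ _ _ _ (by decide)]; exact H.a1
    · rw [upd_ne _ _ _ _ _ _ (by decide)]; exact H.a2
    · rw [upd_ne _ _ _ _ .g _ (by decide)]
      exact (upd_le _ _ _ _ _).trans H.g1
    · rw [upd_ne _ _ _ _ .g _ (by decide), upd_ne _ _ _ _ .g _ (by decide)]
      exact H.g2
    · rw [upd_ne _ _ _ _ .l _ (by decide)]
      exact (upd_le _ _ _ _ _).trans H.l1
    · rw [upd_ne _ _ _ _ .l _ (by decide), upd_ne _ _ _ _ .l _ (by decide)]
      exact H.l2
    · rw [upd_ne _ _ _ _ _ _ (by decide)]; exact H.c1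
    · rw [upd_ne _ _ _ _ _ _ (by decide)]; exact H.c2
  have hle := hI.2 (show IsModel (reduct Pg I) _ from (md_iff _ _).2 hJ) (at' .b t)
  rw [upd_eq I .b (fun s => s = t) 1 t rfl, hb] at hle
  exact n21 hle

/-- In every stable partial model all but finitely many of the atoms `c(n)` are undefined. -/
theorem tail_undef {I : Interp Lg} (hI : IsStable Pg I) :
    ∃ m, ∀ n, m < n → I (at' .c (num n)) = 1 := by
  have hm := (md_iff I I).1 hI.1
  have key : ∃ m, ∀ n, m < n → I (at' .b (num n)) ≠ 2 ∧ I (at' .g (num n)) ≠ 2 := by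
    by_cases h : ∃ m, I (at' .b (num m)) = 2
    · obtain ⟨m, hb⟩ := h
      have hg := g_zero_of_b hI _ hb
      have hnb : ∀ n, m < n → I (at' .b (num n)) ≠ 2 := by
        intro n hn hb'
        rw [g_of_b hI m n hn hb'] at hg
        exact absurd hg (by decide)
      refine ⟨m, fun n hn => ⟨hnb n hn, fun hg' => ?_⟩⟩
      obtain ⟨k, hk, hbk⟩ := b_of_g hI n hg'
      exact hnb k (hn.trans hk) hbk
    · push Not at h
      refine ⟨0, fun n _ => ⟨h n, fun hg' => ?_⟩⟩
      obtain ⟨k, _, hbk⟩ := b_of_g hI n hg'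
      exact h k hbk
  obtain ⟨m, hm'⟩ := key
  refine ⟨m, fun n hn => ?_⟩
  have h1 := (hm (num n)).c1 (c_ne hI _) (hm' n hn).1 (hm' n hn).2
  have h2 := c_ne hI (num n)
  revert h1 h2
  generalize I (at' .c (num n)) = v
  revert v
  decide

/-- the stable partial model in which `b(m)` is true -/
def Jm (m : ℕ) : Interp Lg := fun x =>
  match x.pred with
  | .a => if dep (arg x) = m then 0 else 2
  | .b => if dep (arg x) = m then 2 else 0
  | .c => if m < dep (arg x) then 1 else 0
  | .g => if dep (arg x) < m then 2 else 0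
  | .l => if m < dep (arg x) then 2 else 0

theorem Jm_a (m : ℕ) (t : GTerm Lg) : Jm m (at' .a t) = if dep t = m then 0 else 2 := rfl
theorem Jm_b (m : ℕ) (t : GTerm Lg) : Jm m (at' .b t) = if dep t = m then 2 else 0 := rfl
theorem Jm_c (m : ℕ) (t : GTerm Lg) : Jm m (at' .c t) = if m < dep t then 1 else 0 := rfl
theorem Jm_g (m : ℕ) (t : GTerm Lg) : Jm m (at' .g t) = if dep t < m then 2 else 0 := rfl
theorem Jm_l (m : ℕ) (t : GTerm Lg) : Jm m (at' .l t) = if m < dep t then 2 else 0 := rfl

theorem Jm_stable (m : ℕ) : IsStable Pg (Jm m) := by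
  constructor
  · refine (md_iff _ _).2 fun t => ?_
    constructor <;> simp only [Jm_a, Jm_b, Jm_c, Jm_g, Jm_l, dep_sc]
    all_goals
      by_cases h1 : dep t = m
      · subst h1; simp
      by_cases h2 : dep t < m
      · by_cases h3 : dep t + 1 = m
        · simp [h1, h3, show ¬ m < dep t by omega, show dep t < m by omega,
            show ¬ m < dep t + 1 by omega]
        · simp [h1, h3, show ¬ m < dep t by omega, show dep t < m by omega,
            show ¬ m < dep t + 1 by omega, show dep t + 1 < m by omega]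
      · simp [h1, h2, show m < dep t by omega, show m < dep t + 1 by omega,
          show ¬ dep t + 1 < m by omega, show ¬ dep t + 1 = m by omega]
  · intro J hJ
    have hm : ∀ t, Md (Jm m) J t := (md_iff _ _).1 hJ
    have hb : J (at' .b (num m)) = 2 := by
      apply (hm (num m)).b2 <;> simp only [Jm_a, Jm_g, Jm_l, dep_num]
      · simp
      · simp
      · simp
    have hg : ∀ k n, n + k + 1 = m → J (at' .g (num n)) = 2 := by
      intro k
      induction k with
      | zero =>
        intro n hn
        have h1 := (hm (num n)).g1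
        have h2 : J (at' .b (sc (num n))) = 2 := by
          rw [← hb, ← hn]; rfl
        rw [h2] at h1
        exact le_antisymm (Fin.le_last _) h1
      | succ k ih =>
        intro n hn
        have h1 := (hm (num n)).g2
        have h2 : J (at' .g (sc (num n))) = 2 := ih (n + 1) (by omega)
        rw [h2] at h1
        exact le_antisymm (Fin.le_last _) h1
    have hl : ∀ k, J (at' .l (num (m + k + 1))) = 2 := by
      intro k
      induction k with
      | zero =>
        have h1 := (hm (num m)).l1
        rw [hb] at h1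
        exact le_antisymm (Fin.le_last _) h1
      | succ k ih =>
        have h1 := (hm (num (m + k + 1))).l2
        rw [ih] at h1
        exact le_antisymm (Fin.le_last _) h1
    intro x
    obtain ⟨p, t, rfl⟩ := atom_eq x
    cases p with
    | a =>
      rw [Jm_a]
      split_ifs with h
      · exact Fin.zero_le _
      · rw [(hm t).a2 (by rw [Jm_b, if_neg h])]
    | b =>
      rw [Jm_b]
      split_ifs with h
      · rw [← num_dep t, h, hb]
      · exact Fin.zero_le _
    | c =>
      rw [Jm_c]
      split_ifs with h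
      · apply (hm t).c1
        · rw [Jm_c, if_pos h]; decide
        · rw [Jm_b, if_neg (by omega)]; decide
        · rw [Jm_g, if_neg (by omega)]; decide
      · exact Fin.zero_le _
    | g =>
      rw [Jm_g]
      split_ifs with h
      · rw [← num_dep t, hg (m - dep t - 1) (dep t) (by omega)]
      · exact Fin.zero_le _
    | l =>
      rw [Jm_l]
      split_ifs with h
      · rw [← num_dep t]
        have := hl (dep t - m - 1)
        rw [show m + (dep t - m - 1) + 1 = dep t by omega] at this
        rw [this]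
      · exact Fin.zero_le _

theorem undef_Jm {m : ℕ} {x : GAtom Lg} (hx : x ∈ undef (Jm m)) :
    ∃ n, m < n ∧ x = at' .c (num n) := by
  obtain ⟨p, t, rfl⟩ := atom_eq x
  have hx' : Jm m (at' p t) = 1 := hx
  cases p with
  | a => rw [Jm_a] at hx'; split_ifs at hx' <;> exact absurd hx' (by decide)
  | b => rw [Jm_b] at hx'; split_ifs at hx' <;> exact absurd hx' (by decide)
  | c =>
    rw [Jm_c] at hx'
    split_ifs at hx' with h
    · exact ⟨dep t, h, by rw [num_dep]⟩
    · exact absurd hx' (by decide)
  | g => rw [Jm_g] at hx'; split_ifs at hx' <;> exact absurd hx' (by decide)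
  | l => rw [Jm_l] at hx'; split_ifs at hx' <;> exact absurd hx' (by decide)

theorem usesAll : UsesAll Pg := by
  constructor
  · intro f
    match f with
    | false =>
      exact ⟨⟨at' .g zr, [at' .g zr], []⟩, by simp [Pg], at' .g zr, by simp [Rule.atoms],
        (0 : Fin 1), Or.inl rfl⟩
    | true =>
      exact ⟨⟨at' .g x0, [at' .b (sc x0)], []⟩, by simp [Pg], at' .b (sc x0),
        by simp [Rule.atoms], (0 : Fin 1), Or.inl rfl⟩
  · intro p
    match p with
    | .a => exact ⟨⟨at' .a x0, [], [at' .b x0]⟩, by simp [Pg], at' .a x0, by simp [Rule.atoms], rfl⟩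
    | .b => exact ⟨⟨at' .a x0, [], [at' .b x0]⟩, by simp [Pg], at' .b x0, by simp [Rule.atoms], rfl⟩
    | .c => exact ⟨⟨at' .c x0, [], [at' .c x0, at' .b x0, at' .g x0]⟩, by simp [Pg], at' .c x0,
        by simp [Rule.atoms], rfl⟩
    | .g => exact ⟨⟨at' .g zr, [at' .g zr], []⟩, by simp [Pg], at' .g zr, by simp [Rule.atoms], rfl⟩
    | .l => exact ⟨⟨at' .l (sc x0), [at' .b x0], []⟩, by simp [Pg], at' .l (sc x0),
        by simp [Rule.atoms], rfl⟩

theorem occ_x0 (x : ℕ) : x0.Occ x ↔ x = 0 := Iff.rfl

theorem occ_at (p : Pd) (t : Term Lg ℕ) (x : ℕ) : (at' p t).Occ x ↔ t.Occ x :=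
  ⟨fun ⟨_, h⟩ => h, fun h => ⟨(0 : Fin 1), h⟩⟩

theorem occ_sc (t : Term Lg ℕ) (x : ℕ) : (sc t).Occ x ↔ t.Occ x :=
  ⟨fun ⟨_, h⟩ => h, fun h => ⟨(0 : Fin 1), h⟩⟩

theorem ivf : InternalVarFree Pg := by
  intro r hr a ha x
  simp only [Pg, List.mem_cons, List.not_mem_nil, or_false] at hr
  rcases hr with rfl | rfl | rfl | rfl | rfl | rfl | rfl | rfl <;>
    simp only [List.nil_append, List.append_nil, List.mem_cons, List.not_mem_nil, or_false] at ha
  · rcases ha with rfl | rfl | rfl <;> simp only [occ_at, occ_sc, imp_self]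
  · subst ha; simp only [occ_at, occ_sc, imp_self]
  · subst ha; simp only [occ_at, occ_sc, imp_self]
  · subst ha; simp only [occ_at, occ_sc, imp_self]
  · subst ha; simp only [occ_at, occ_sc, imp_self]
  · subst ha; simp only [occ_at, occ_sc, imp_self]
  · rcases ha with rfl | rfl | rfl <;> simp only [occ_at, occ_sc, imp_self]
  · subst ha; simp only [occ_at, occ_sc, imp_self]

/-- There are a language with finitely many symbols and a finite internal-variable-free normal
logic program using all its symbols such that every stable partial model `I` of the program admits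
another stable partial model `J` whose set of undefined atoms is a proper subset of that of `I`;
so the program has no L-stable model. -/
theorem result : ∃ (L : Lang) (P : Program L), UsesAll P ∧ InternalVarFree P ∧
    (∀ I, IsStable P I → ∃ J, IsStable P J ∧ undef J ⊂ undef I) ∧
    ¬ ∃ I, IsLStable P I := by
  have key : ∀ I, IsStable Pg I → ∃ J, IsStable Pg J ∧ undef J ⊂ undef I := by
    intro I hI
    obtain ⟨m, hm⟩ := tail_undef hI
    refine ⟨Jm (m + 1), Jm_stable _, ?_, ?_⟩
    · intro x hx
      obtain ⟨n, hn, rfl⟩ := undef_Jm hx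
      exact hm n (by omega)
    · intro hsub
      have h1 : at' .c (num (m + 1)) ∈ undef I := hm (m + 1) (by omega)
      have h2 : Jm (m + 1) (at' .c (num (m + 1))) = 1 := hsub h1
      rw [Jm_c, dep_num, if_neg (lt_irrefl _)] at h2
      exact absurd h2 (by decide)
  exact ⟨Lg, Pg, usesAll, ivf, key, fun ⟨I, hI, hn⟩ => hn (key I hI)⟩

end Pool.Agent.Results.MP_718be6_lc.NoLStable
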